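import Mathlib
import Pool.Agent.H81.LE.Stm

/-!
# Composition of spread measures (module of project LE, written by helper40)
-/

set_option autoImplicit false

namespace Pool.Agent.H40.LE

open Finset Pool.Agent.H81.LE

/-- the sum over the fibres of the union -/
theorem fib {E : Type} [DecidableEq E] (s : Finset (Finset E)) (t : Finset E → Finset (Finset E))
    (f : Finset E → Finset E → ℝ) (R : Finset E → Prop) [DecidablePred R] :
    ∑ K ∈ (s.biUnion fun M => (t M).image fun M' => M ∪ M').filter R,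
      ∑ M ∈ s, ∑ M' ∈ (t M).filter (fun M' => M ∪ M' = K), f M M' =
    ∑ M ∈ s, ∑ M' ∈ (t M).filter (fun M' => R (M ∪ M')), f M M' := by
  rw [Finset.sum_comm]
  refine Finset.sum_congr rfl fun M hM => ?_
  rw [← Finset.sum_fiberwise_of_maps_to
    (t := (s.biUnion fun M => (t M).image fun M' => M ∪ M').filter R) (g := fun M' => M ∪ M')
    (s := (t M).filter (fun M' => R (M ∪ M')))]
  · refine Finset.sum_congr rfl fun K hK => ?_
    refine Finset.sum_congr ?_ fun _ _ => rfl
    rw [Finset.filter_filter]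
    refine Finset.filter_congr fun M' _ => ?_
    constructor
    · intro h
      exact ⟨by rw [h]; exact (Finset.mem_filter.1 hK).2, h⟩
    · exact fun h => h.2
  · intro M' hM'
    rw [Finset.mem_filter] at hM' ⊢
    exact ⟨Finset.mem_biUnion.2 ⟨M, hM, Finset.mem_image.2 ⟨M', hM'.1, rfl⟩⟩, hM'.2⟩

theorem t_comp : S_comp := by
  intro E _ θ₁ θ₂ P Q h1 h2 hP hQ
  classical
  obtain ⟨s, μ, hs, hsum, hsp⟩ := hP
  unfold Spread at hQ
  choose! t ν hA hB hC using hQ
  have hnn : ∀ M ∈ s, ∀ M' ∈ t M, 0 ≤ μ M * ν M M' := fun M hM M' hM' =>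
    mul_nonneg (hs M hM).2 (hA M (hs M hM).1 M' hM').2
  refine ⟨s.biUnion fun M => (t M).image fun M' => M ∪ M',
    fun K => ∑ M ∈ s, ∑ M' ∈ (t M).filter (fun M' => M ∪ M' = K), μ M * ν M M', ?_, ?_, ?_⟩
  · intro K hK
    obtain ⟨M, hM, hK⟩ := Finset.mem_biUnion.1 hK
    obtain ⟨M', hM', rfl⟩ := Finset.mem_image.1 hK
    exact ⟨⟨M, M', (hs M hM).1, (hA M (hs M hM).1 M' hM').1, rfl⟩,
      Finset.sum_nonneg fun N hN => Finset.sum_nonneg fun N' hN' =>
        hnn N hN N' (Finset.mem_filter.1 hN').1⟩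
  · have e := fib s t (fun M M' => μ M * ν M M') (fun _ => True)
    simp only [Finset.filter_true] at e
    rw [e, ← hsum]
    refine Finset.sum_congr rfl fun M hM => ?_
    rw [← Finset.mul_sum, hB M (hs M hM).1, mul_one]
  · intro J
    rw [fib s t (fun M M' => μ M * ν M M') (fun K => J ⊆ K)]
    have step1 : ∀ M ∈ s, ∑ M' ∈ (t M).filter (fun M' => J ⊆ M ∪ M'), μ M * ν M M' ≤
        ∑ J1 ∈ J.powerset, (if J1 ⊆ M then μ M * θ₂ ^ (J \ J1).card else 0) := by
      intro M hM
      have hPM := (hs M hM).1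
      calc ∑ M' ∈ (t M).filter (fun M' => J ⊆ M ∪ M'), μ M * ν M M'
          ≤ ∑ M' ∈ (t M).filter (fun M' => J \ (J ∩ M) ⊆ M'), μ M * ν M M' := by
            refine Finset.sum_le_sum_of_subset_of_nonneg ?_ ?_
            · intro M' hM'
              rw [Finset.mem_filter] at hM' ⊢
              refine ⟨hM'.1, fun x hx => ?_⟩
              rw [Finset.mem_sdiff, Finset.mem_inter] at hx
              rcases Finset.mem_union.1 (hM'.2 hx.1) with h | h
              · exact absurd ⟨hx.1, h⟩ hx.2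
              · exact h
            · intro M' hM' _
              exact hnn M hM M' (Finset.mem_filter.1 hM').1
        _ ≤ μ M * θ₂ ^ (J \ (J ∩ M)).card := by
            rw [← Finset.mul_sum]
            exact mul_le_mul_of_nonneg_left (hC M hPM _) (hs M hM).2
        _ = if J ∩ M ⊆ M then μ M * θ₂ ^ (J \ (J ∩ M)).card else 0 := by
            rw [if_pos Finset.inter_subset_right]
        _ ≤ _ := by
            refine Finset.single_le_sum
              (f := fun J1 => if J1 ⊆ M then μ M * θ₂ ^ (J \ J1).card else 0) (fun J1 _ => ?_)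
              (Finset.mem_powerset.2 Finset.inter_subset_left)
            split_ifs
            · exact mul_nonneg (hs M hM).2 (pow_nonneg h2 _)
            · exact le_rfl
    calc ∑ M ∈ s, ∑ M' ∈ (t M).filter (fun M' => J ⊆ M ∪ M'), μ M * ν M M'
        ≤ ∑ M ∈ s, ∑ J1 ∈ J.powerset, (if J1 ⊆ M then μ M * θ₂ ^ (J \ J1).card else 0) :=
          Finset.sum_le_sum step1
      _ = ∑ J1 ∈ J.powerset, (∑ M ∈ s.filter (fun M => J1 ⊆ M), μ M) * θ₂ ^ (J \ J1).card := by
          rw [Finset.sum_comm]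
          refine Finset.sum_congr rfl fun J1 _ => ?_
          rw [← Finset.sum_filter, Finset.sum_mul]
      _ ≤ ∑ J1 ∈ J.powerset, θ₁ ^ J1.card * θ₂ ^ (J.card - J1.card) := by
          refine Finset.sum_le_sum fun J1 hJ1 => ?_
          rw [Finset.card_sdiff_of_subset (Finset.mem_powerset.1 hJ1)]
          exact mul_le_mul_of_nonneg_right (hsp J1) (pow_nonneg h2 _)
      _ = (θ₁ + θ₂) ^ J.card := Finset.sum_pow_mul_eq_add_pow θ₁ θ₂ J

end Pool.Agent.H40.LE
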